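import Pool.Agent.H5.TT.Stm

set_option autoImplicit false

open MeasureTheory

namespace H60.TT

open H5.TT

theorem int3 {l : ℝ} (hl : 0 < l) (f : R3 → ℝ) : ∫ x, f (l⁻¹ • x) = l ^ 3 * ∫ x, f x := by
  have h := Measure.integral_comp_inv_smul_of_nonneg (volume : Measure R3) f hl.le
  rw [h]
  simp [R3]

theorem int6 {l : ℝ} (hl : 0 < l) (f : R3 × R3 → ℝ) : ∫ p, f (l⁻¹ • p) = l ^ 6 * ∫ p, f p := by
  haveI : (volume : Measure (R3 × R3)).IsAddHaarMeasure := by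
    rw [Measure.volume_eq_prod]
    infer_instance
  have h := Measure.integral_comp_inv_smul_of_nonneg (volume : Measure (R3 × R3)) f hl.le
  rw [h]
  simp [R3, Module.finrank_prod]

theorem nrm {l : ℝ} (hl : 0 < l) (x y : R3) : ‖x - l • y‖ = l * ‖l⁻¹ • x - y‖ := by
  have : x - l • y = l • (l⁻¹ • x - y) := by
    rw [smul_sub, smul_smul, mul_inv_cancel₀ hl.ne', one_smul]
  rw [this, norm_smul, Real.norm_of_nonneg hl.le]

theorem nrm2 {l : ℝ} (hl : 0 < l) (x y : R3) : ‖x - y‖ = l * ‖l⁻¹ • x - l⁻¹ • y‖ := by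
  have : x - y = l • (l⁻¹ • x - l⁻¹ • y) := by
    rw [← smul_sub, smul_smul, mul_inv_cancel₀ hl.ne', one_smul]
  conv_lhs => rw [this]
  rw [norm_smul, Real.norm_of_nonneg hl.le]

theorem pw {l : ℝ} (hl : 0 < l) : ((l ^ 3)⁻¹) ^ (5 / 3 : ℝ) = (l ^ 5)⁻¹ := by
  rw [Real.inv_rpow (by positivity), ← Real.rpow_natCast, ← Real.rpow_mul hl.le]
  norm_num

theorem t_SCA : S_SCA := by
  intro k z R lam l hl σ hσ
  obtain ⟨hm, h0, hi, hi5, hlam⟩ := hσ
  have hl' : l⁻¹ ≠ 0 := inv_ne_zero hl.ne'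
  have hl0 : l ≠ 0 := hl.ne'
  have e5 : (fun x : R3 => ((l ^ 3)⁻¹ * σ (l⁻¹ • x)) ^ (5 / 3 : ℝ)) =
      fun x => (l ^ 5)⁻¹ * (σ (l⁻¹ • x)) ^ (5 / 3 : ℝ) := by
    funext x
    rw [Real.mul_rpow (by positivity) (h0 _), pw hl]
  refine ⟨⟨?_, ?_, ?_, ?_, ?_⟩, ?_⟩
  · exact (hm.comp (measurable_const_smul _)).const_mul _
  · intro x
    have := h0 (l⁻¹ • x)
    positivity
  · exact (hi.comp_smul hl').const_mul _
  · rw [e5]
    exact (hi5.comp_smul hl').const_mul _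
  · rw [integral_const_mul, int3 hl (fun x => σ x), hlam]
    field_simp
  · have hkin : kin (fun x => (l ^ 3)⁻¹ * σ (l⁻¹ • x)) = (l ^ 2)⁻¹ * kin σ := by
      unfold kin
      rw [e5, integral_const_mul, int3 hl (fun x => σ x ^ (5 / 3 : ℝ))]
      field_simp
    have hatt : att z R l (fun x => (l ^ 3)⁻¹ * σ (l⁻¹ • x)) = l⁻¹ * att z R 1 σ := by
      unfold att
      rw [Finset.mul_sum]
      refine Finset.sum_congr rfl fun j _ => ?_
      have : (fun x : R3 => (l ^ 3)⁻¹ * σ (l⁻¹ • x) / ‖x - l • R j‖) =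
          fun x => (l ^ 4)⁻¹ * ((fun y : R3 => σ y / ‖y - (1 : ℝ) • R j‖) (l⁻¹ • x)) := by
        funext x
        rw [nrm hl]
        simp only [one_smul]
        rw [show (l ^ 4)⁻¹ = (l ^ 3)⁻¹ * l⁻¹ by field_simp, div_eq_mul_inv, div_eq_mul_inv,
          mul_inv]
        ring
      rw [this, integral_const_mul, int3 hl (fun y : R3 => σ y / ‖y - (1 : ℝ) • R j‖)]
      field_simp
    have hdd : dd (fun x => (l ^ 3)⁻¹ * σ (l⁻¹ • x)) (fun x => (l ^ 3)⁻¹ * σ (l⁻¹ • x)) =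
        l⁻¹ * dd σ σ := by
      unfold dd
      have : (fun p : R3 × R3 => (l ^ 3)⁻¹ * σ (l⁻¹ • p.1) * ((l ^ 3)⁻¹ * σ (l⁻¹ • p.2)) /
          ‖p.1 - p.2‖) =
          fun p => (l ^ 7)⁻¹ * ((fun q : R3 × R3 => σ q.1 * σ q.2 / ‖q.1 - q.2‖) (l⁻¹ • p)) := by
        funext p
        rw [nrm2 hl p.1 p.2]
        simp only [Prod.smul_fst, Prod.smul_snd]
        rw [show (l ^ 7)⁻¹ = (l ^ 3)⁻¹ * (l ^ 3)⁻¹ * l⁻¹ by field_simp, div_eq_mul_inv,
          div_eq_mul_inv, mul_inv]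
        ring
      rw [this, integral_const_mul,
        int6 hl (fun q : R3 × R3 => σ q.1 * σ q.2 / ‖q.1 - q.2‖)]
      field_simp
    have hrep : rep z (fun j => l • R j) = l⁻¹ * rep z R := by
      unfold rep
      rw [Finset.mul_sum]
      refine Finset.sum_congr rfl fun i _ => ?_
      rw [Finset.mul_sum]
      refine Finset.sum_congr rfl fun j _ => ?_
      rw [← smul_sub, norm_smul, Real.norm_of_nonneg hl.le, div_eq_mul_inv, div_eq_mul_inv,
        mul_inv]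
      ring
    unfold tf
    rw [hkin, hatt, hdd, hrep]
    ring

end H60.TT
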